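import Pool.Agent.Q21.SG.W

/-!
# Non-simple groups with trivial soluble radical whose soluble graph has diameter at least four

`radical G` is the soluble radical and `solubleGraph G` the soluble graph (on the elements outside
the radical, `x` and `y` adjacent when they are distinct and generate a soluble subgroup).
The groups are the groups of semilinear automorphisms of `F_{q^5}` over `F_q`, `q = 32 ^ m`,
`m` odd, with field automorphisms of order dividing five, modulo scalars.
-/

namespace Pool.Agent.Results.MP_259931_al.NonSimple

open Pool.Agent.Q21.SG

theorem result : ∀ n : ℕ, ∃ (G : Type) (_ : Group G), Finite G ∧ n ≤ Nat.card G ∧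
    ¬ IsSimpleGroup G ∧ ¬ Group.IsSolvable G ∧ radical G = ⊥ ∧
      ∃ x y : {x : G // x ∉ radical G}, 4 ≤ (solubleGraph G).edist x y := by
  intro n
  obtain ⟨G, gG, h1, h2, h3, h4⟩ := exists_group n
  exact ⟨G, gG, h1, h2, h3, h4.not_solvable, h4.radical_eq, h4.edist⟩

end Pool.Agent.Results.MP_259931_al.NonSimple
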